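import Mathlib

/-!
# The lion number is not monotone under connected subgraphs

We give a connected graph `G` on eight vertices with twelve edges and an edge `e` of `G` such that
`G - e` is connected, two lions can clear `G`, and two lions cannot clear `G - e`.
-/

namespace Pool.Agent.Results.MP_fb7c1b_co.LionNumberNotMonotone

section Defs

variable {V : Type*}

/-- The set of cleared vertices after a step in which lion `i` moves from `p i` to `q i`, when the
set of cleared vertices before the step is `C`. -/
def nextCleared (G : SimpleGraph V) {k : ℕ} (p q : Fin k → V) (C : Set V) : Set V :=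
  {v | (∃ i, q i = v) ∨ (v ∈ C ∧ ∀ u, G.Adj v u → u ∉ C → ∃ i, p i = v ∧ q i = u)}

/-- The set of cleared vertices at time `t` if lion `i` is at `P t i` at time `t`. -/
def cleared (G : SimpleGraph V) {k : ℕ} (P : ℕ → Fin k → V) : ℕ → Set V
  | 0 => Set.range (P 0)
  | t + 1 => nextCleared G (P t) (P (t + 1)) (cleared G P t)

/-- `k` lions can clear `G`: some initial placement and sequence of moves (each lion stays or moves
along an edge) leads to all vertices being cleared. -/
def CanClear (G : SimpleGraph V) (k : ℕ) : Prop :=
  ∃ P : ℕ → Fin k → V, (∀ t i, P t i = P (t + 1) i ∨ G.Adj (P t i) (P (t + 1) i)) ∧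
    ∃ t, cleared G P t = Set.univ

theorem nextCleared_mono (G : SimpleGraph V) {k : ℕ} (p q : Fin k → V) {C D : Set V}
    (h : C ⊆ D) : nextCleared G p q C ⊆ nextCleared G p q D := by
  rintro v (hv | ⟨hv, hu⟩)
  · exact Or.inl hv
  · exact Or.inr ⟨h hv, fun u hu1 hu2 => hu u hu1 fun hu3 => hu2 (h hu3)⟩

end Defs

/-! ### Boolean version for two lions on `Fin 8` -/

/-- Adjacency matrix (64 bits) of the large graph. -/
def maskG : ℕ := 0x79b2ccc2a4285080
/-- Adjacency matrix (64 bits) of the subgraph. -/
def maskH : ℕ := 0x59b24cc2a4285080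

/-- The adjacency stored in a mask. -/
def adjM (m : ℕ) (a b : Fin 8) : Bool := Nat.testBit m (8 * a.val + b.val)

/-- The graph with edges `07 14 16 23 25 35 37 46 47 56 57 67`. -/
def G : SimpleGraph (Fin 8) where
  Adj a b := adjM maskG a b = true
  symm := ⟨by decide⟩
  loopless := ⟨by decide⟩

/-- The graph `G` without the edge `57`. -/
def H : SimpleGraph (Fin 8) where
  Adj a b := adjM maskH a b = true
  symm := ⟨by decide⟩
  loopless := ⟨by decide⟩

/-- Staying or moving along an edge. -/
def stepM (m : ℕ) (a b : Fin 8) : Bool := a == b || adjM m a b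

/-- The Boolean version of `nextCleared`. -/
def nextB (m : ℕ) (p0 p1 q0 q1 : Fin 8) (C : Fin 8 → Bool) (v : Fin 8) : Bool :=
  q0 == v || q1 == v || (C v && (List.finRange 8).all fun u =>
    !(adjM m v u) || C u || (p0 == v && q0 == u) || (p1 == v && q1 == u))

theorem mem_next_iff {m : ℕ} {K : SimpleGraph (Fin 8)} (hK : ∀ a b, K.Adj a b ↔ adjM m a b = true)
    (p q : Fin 2 → Fin 8) (C : Fin 8 → Bool) (v : Fin 8) :
    v ∈ nextCleared K p q {w | C w = true} ↔ nextB m (p 0) (p 1) (q 0) (q 1) C v = true := by
  simp only [nextCleared, nextB, Set.mem_ofPred_eq, Bool.or_eq_true, beq_iff_eq, Bool.and_eq_true,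
    List.all_eq_true, Bool.not_eq_true', Fin.exists_fin_two]
  constructor
  · rintro (h | ⟨h1, h2⟩)
    · exact Or.inl h
    · refine Or.inr ⟨h1, fun u _ => ?_⟩
      by_cases ha : adjM m v u = true
      · by_cases hC : C u = true
        · exact Or.inl (Or.inl (Or.inr hC))
        · rcases h2 u ((hK v u).2 ha) hC with h3 | h3
          · exact Or.inl (Or.inr h3)
          · exact Or.inr h3
      · exact Or.inl (Or.inl (Or.inl (by simpa using ha)))
  · rintro (h | ⟨h1, h2⟩)
    · exact Or.inl h
    · refine Or.inr ⟨h1, fun u hu hC => ?_⟩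
      rcases h2 u (List.mem_finRange u) with ((h3 | h3) | h3) | h3
      · rw [hK, h3] at hu
        simp at hu
      · exact absurd h3 hC
      · exact Or.inl h3
      · exact Or.inr h3

theorem H_le : H ≤ G := by
  intro a b h
  have : ∀ a b : Fin 8, adjM maskH a b = true → adjM maskG a b = true := by decide +kernel
  exact this a b h

theorem H_connected : H.Connected := by
  have h : ∀ a : Fin 8, ∃ c, stepM maskH 6 c = true ∧ ∃ d, stepM maskH c d = true ∧
      ∃ e, stepM maskH d e = true ∧ stepM maskH e a = true := by
    decide +kernel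
  have hr : ∀ a b : Fin 8, stepM maskH a b = true → H.Reachable a b := by
    intro a b h
    simp only [stepM, Bool.or_eq_true, beq_iff_eq] at h
    rcases h with rfl | h
    · exact SimpleGraph.Reachable.refl _
    · exact SimpleGraph.Adj.reachable (G := H) h
  have h6 : ∀ a, H.Reachable 6 a := by
    intro a
    obtain ⟨c, h1, d, h2, e, h3, h4⟩ := h a
    exact (((hr _ _ h1).trans (hr _ _ h2)).trans (hr _ _ h3)).trans (hr _ _ h4)
  exact SimpleGraph.Connected.mk fun a b => (h6 a).symm.trans (h6 b)

/-! ### Two lions clear `G` -/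

/-- Positions of the two lions. -/
def route : List (Fin 8 × Fin 8) := [(1, 1), (4, 6), (7, 6), (7, 5), (0, 7), (7, 6), (7, 5), (3, 5), (2, 2)]
/-- The cleared sets along the route, as masks. -/
def routeC : List ℕ := [2, 82, 210, 242, 211, 211, 243, 251, 255]

/-- The position at time `t`. -/
def pos (t : ℕ) : Fin 8 × Fin 8 := route.getD t (2, 2)
/-- The cleared set at time `t`. -/
def msk (t : ℕ) : ℕ := routeC.getD t 255

theorem canClear_G : CanClear G 2 := by
  refine ⟨fun t => ![(pos t).1, (pos t).2], ?_, 8, ?_⟩
  · intro t i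
    have h1 : ∀ t < 8, stepM maskG (pos t).1 (pos (t + 1)).1 = true ∧
        stepM maskG (pos t).2 (pos (t + 1)).2 = true := by decide +kernel
    have h2 : ∀ a b : Fin 8, stepM maskG a b = true → a = b ∨ G.Adj a b := by
      intro a b h
      simp only [stepM, Bool.or_eq_true, beq_iff_eq] at h
      exact h
    by_cases ht : t < 8
    · fin_cases i
      · exact h2 _ _ (h1 t ht).1
      · exact h2 _ _ (h1 t ht).2
    · have h3 : ∀ s, 8 ≤ s → pos s = (2, 2) := by
        intro s hs
        unfold pos
        rcases Nat.eq_or_lt_of_le hs with rfl | hs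
        · rfl
        · exact List.getD_eq_default _ _ (by show 9 ≤ s; omega)
      have h4 : pos t = pos (t + 1) := by rw [h3 t (by omega), h3 (t + 1) (by omega)]
      left
      simp only [h4]
  · have key : ∀ t ≤ 8, cleared G (fun t => ![(pos t).1, (pos t).2]) t =
        {w | Nat.testBit (msk t) w.val = true} := by
      intro t
      induction t with
      | zero =>
        intro _
        have h0 : ∀ w : Fin 8, ((pos 0).1 = w ∨ (pos 0).2 = w) ↔
            Nat.testBit (msk 0) w.val = true := by decide +kernel
        ext w
        rw [Set.mem_ofPred_eq, ← h0]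
        constructor
        · rintro ⟨i, rfl⟩
          fin_cases i
          · exact Or.inl rfl
          · exact Or.inr rfl
        · rintro (h | h)
          · exact ⟨0, h⟩
          · exact ⟨1, h⟩
      | succ t ih =>
        intro ht
        have h1 : ∀ t < 8, ∀ v : Fin 8, nextB maskG (pos t).1 (pos t).2 (pos (t + 1)).1
            (pos (t + 1)).2 (fun w => Nat.testBit (msk t) w.val) v =
              Nat.testBit (msk (t + 1)) v.val := by decide +kernel
        ext v
        rw [cleared, ih (by omega), mem_next_iff (m := maskG) (fun a b => Iff.rfl),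
          Set.mem_ofPred_eq]
        show nextB maskG (pos t).1 (pos t).2 (pos (t + 1)).1 (pos (t + 1)).2 _ v = true ↔ _
        rw [h1 t (by omega) v]
    rw [key 8 le_rfl]
    ext v
    have : ∀ v : Fin 8, Nat.testBit (msk 8) v.val = true := by decide +kernel
    simp only [Set.mem_ofPred_eq, this v, Set.mem_univ]

/-! ### Two lions cannot clear `H` -/

/-- For every pair of positions a list of masks: the maximal possible cleared sets. -/
def tab : List (List ℕ) :=
  [[13, 19],
   [19, 47],
   [13, 87, 151],
   [13, 91, 155],
   [19, 61],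
   [45, 115, 179],
   [83, 109],
   [147, 173],
   [19, 47],
   [19, 38],
   [7, 38],
   [26, 46, 139],
   [62, 147],
   [38, 51],
   [83, 110, 195],
   [147, 167, 174, 194],
   [13, 87, 151],
   [7, 38],
   [13, 38],
   [13, 46, 94],
   [21, 28, 52, 86],
   [38, 45],
   [77, 86, 100],
   [135, 140, 166, 214],
   [13, 91, 155],
   [26, 46, 139],
   [13, 46, 94],
   [9, 12, 90],
   [60, 90, 153],
   [46, 122, 169],
   [75, 89, 90, 108, 201],
   [139, 141, 172, 218],
   [19, 61],
   [62, 147],
   [21, 28, 52, 86],
   [60, 90, 153],
   [19, 54, 60, 145],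
   [51, 54, 57, 60, 114, 177],
   [83, 118, 124, 209],
   [147, 157, 181, 182, 188, 210],
   [45, 115, 179],
   [38, 51],
   [38, 45],
   [46, 122, 169],
   [51, 54, 57, 60, 114, 177],
   [33, 38],
   [105, 108, 114],
   [163, 165, 166, 169, 172, 242],
   [83, 109],
   [83, 110, 195],
   [77, 86, 100],
   [75, 89, 90, 108, 201],
   [83, 118, 124, 209],
   [105, 108, 114],
   [70, 83, 108, 193],
   [195, 198, 205, 209, 210, 229, 236],
   [147, 173],
   [147, 167, 174, 194],
   [135, 140, 166, 214],
   [139, 141, 172, 218],
   [147, 157, 181, 182, 188, 210],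
   [163, 165, 166, 169, 172, 242],
   [195, 198, 205, 209, 210, 229, 236],
   [131, 141, 165, 172, 210]]

/-- The masks for a pair of positions. -/
def ms (a b : Fin 8) : List ℕ := tab.getD (8 * a.val + b.val) []

/-- Check that the family of masks is closed under moves. -/
def okB (a b : Fin 8) : Bool :=
  (ms a b).all fun M => (List.finRange 8).all fun a' => !(stepM maskH a a') ||
    (List.finRange 8).all fun b' => !(stepM maskH b b') ||
      (ms a' b').any fun M' => (List.finRange 8).all fun v =>
        !(nextB maskH a b a' b' (fun w => Nat.testBit M w.val) v) || Nat.testBit M' v.val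

theorem ok_all : ∀ a b : Fin 8, okB a b = true := by decide +kernel

theorem start_ok : ∀ a b : Fin 8, (ms a b).any (fun M => Nat.testBit M a.val &&
    Nat.testBit M b.val) = true := by decide +kernel

theorem not_full : ∀ a b : Fin 8, (ms a b).all (fun M => (List.finRange 8).any fun v =>
    !(Nat.testBit M v.val)) = true := by decide +kernel

theorem not_canClear_H : ¬ CanClear H 2 := by
  rintro ⟨P, hP, t, ht⟩
  have key : ∀ t, ∃ M ∈ ms (P t 0) (P t 1), cleared H P t ⊆ {w | Nat.testBit M w.val = true} := by
    intro t
    induction t with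
    | zero =>
      have h := start_ok (P 0 0) (P 0 1)
      simp only [List.any_eq_true, Bool.and_eq_true] at h
      obtain ⟨M, hM, h1, h2⟩ := h
      refine ⟨M, hM, ?_⟩
      rintro _ ⟨i, rfl⟩
      fin_cases i
      · exact h1
      · exact h2
    | succ t ih =>
      obtain ⟨M, hM, hsub⟩ := ih
      have h := ok_all (P t 0) (P t 1)
      simp only [okB, List.all_eq_true, Bool.or_eq_true, Bool.not_eq_true'] at h
      have hstep : ∀ i, stepM maskH (P t i) (P (t + 1) i) = true := by
        intro i
        simp only [stepM, Bool.or_eq_true, beq_iff_eq]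
        exact hP t i
      have h1 := h M hM (P (t + 1) 0) (List.mem_finRange _)
      rw [hstep 0] at h1
      have h2 := (h1.resolve_left (by simp)) (P (t + 1) 1) (List.mem_finRange _)
      rw [hstep 1] at h2
      have h3 := h2.resolve_left (by simp)
      simp only [List.any_eq_true, List.all_eq_true, Bool.or_eq_true, Bool.not_eq_true'] at h3
      obtain ⟨M', hM', h4⟩ := h3
      refine ⟨M', hM', ?_⟩
      intro v hv
      have h5 := nextCleared_mono H (P t) (P (t + 1)) hsub hv
      rw [mem_next_iff (m := maskH) (fun a b => Iff.rfl)] at h5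
      rcases h4 v (List.mem_finRange v) with h6 | h6
      · rw [h6] at h5
        simp at h5
      · exact h6
  obtain ⟨M, hM, hsub⟩ := key t
  have h := not_full (P t 0) (P t 1)
  simp only [List.all_eq_true, List.any_eq_true, Bool.not_eq_true'] at h
  obtain ⟨v, -, hv⟩ := h M hM
  have h1 : v ∈ cleared H P t := by rw [ht]; exact Set.mem_univ v
  have h2 : Nat.testBit M v.val = true := hsub h1
  rw [hv] at h2
  simp at h2

/-- **The lion number is not monotone under connected subgraphs.**  There are connected graphs
`H ≤ G` on eight vertices, `H` obtained from `G` by deleting one edge, such that two lions can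
clear `G` but two lions cannot clear `H`. -/
theorem result : ∃ G H : SimpleGraph (Fin 8), H ≤ G ∧ G.Connected ∧ H.Connected ∧
    (∃ e, H = G.deleteEdges {e}) ∧ CanClear G 2 ∧ ¬ CanClear H 2 := by
  refine ⟨G, H, H_le, H_connected.mono H_le, H_connected, ⟨s(5, 7), ?_⟩, canClear_G,
    not_canClear_H⟩
  ext a b
  rw [SimpleGraph.deleteEdges_adj, Set.mem_singleton_iff]
  have : ∀ a b : Fin 8, adjM maskH a b = true ↔ (adjM maskG a b = true ∧ ¬ s(a, b) = s(5, 7)) := by
    decide +kernel
  exact this a b

end Pool.Agent.Results.MP_fb7c1b_co.LionNumberNotMonotone
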